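import Mathlib
import Pool.Agent.Q285.MZ.Main

/-!
# The inverse problem for the degree `p ^ s` Davenport constant of `ZMod (p ^ r)`
-/

namespace Pool.Agent.Results.MP_e23efd_co.ZeroFreeInverse

/-- `S` is `m`-zero free: no sub-multiset with at least `m` terms has a vanishing elementary
symmetric polynomial of degree `m`. -/
def ZeroFree {n : ℕ} (m : ℕ) (S : Multiset (ZMod n)) : Prop :=
  ∀ T : Multiset (ZMod n), T ≤ S → m ≤ T.card → T.esymm m ≠ 0

/-- Every `p ^ s`-zero free sequence of length `p ^ s * p ^ r - 1` over `ZMod (p ^ r)` is constant,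
and its value is a unit. -/
theorem result (p r s : ℕ) (hp : p.Prime) (hr : 1 ≤ r) (S : Multiset (ZMod (p ^ r)))
    (hlen : S.card = p ^ s * p ^ r - 1) (hfree : ZeroFree (p ^ s) S) :
    ∃ a : ZMod (p ^ r), IsUnit a ∧ S = Multiset.replicate (p ^ s * p ^ r - 1) a := by
  have : Fact p.Prime := ⟨hp⟩
  obtain ⟨l, rfl⟩ : ∃ l : List (ZMod (p ^ r)), (l : Multiset (ZMod (p ^ r))) = S :=
    Quot.exists_rep S
  rw [Multiset.coe_card] at hlen
  have hS : ((Finset.univ : Finset (Fin l.length)).val.map l.get) = (l : Multiset (ZMod (p ^ r))) := by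
    rw [Fin.univ_val_map, List.ofFn_get]
  obtain ⟨c, hc, hall⟩ := Pool.Agent.Q285.MZ.family p r s hr l.get
    (by rw [Fintype.card_fin, hlen]) (by
      intro Z hZ
      rw [← Finset.esymm_map_val]
      refine hfree _ ?_ ?_
      · rw [← hS]
        exact Multiset.map_le_map (Finset.val_le_iff.2 (Finset.subset_univ Z))
      · rw [Multiset.card_map, Finset.card_val]
        exact hZ)
  refine ⟨c, hc, ?_⟩
  rw [← hlen, Multiset.coe_eq_coe.2 (List.Perm.refl l)]
  rw [Multiset.eq_replicate]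
  refine ⟨Multiset.coe_card l, fun b hb => ?_⟩
  obtain ⟨j, rfl⟩ := List.mem_iff_get.1 (Multiset.mem_coe.1 hb)
  exact hall j

end Pool.Agent.Results.MP_e23efd_co.ZeroFreeInverse
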